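import Mathlib

set_option autoImplicit false

/-!
# Pairwise compatible Euler tours: definitions and statements of the steps
-/

namespace Pool.Agent.H41.ET

/-- fixed point free involution -/
def Inv0 {V : Type} (N : V → V) : Prop := (∀ x, N (N x) = x) ∧ ∀ x, N x ≠ x

/-- `A` is closed under `N` and `O` -/
def Cl {V : Type} (N O : V → V) (A : Set V) : Prop := (∀ x ∈ A, N x ∈ A) ∧ ∀ x ∈ A, O x ∈ A

/-- `N` and `O` generate a transitive group -/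
def Conn {V : Type} (N O : V → V) : Prop := ∀ A : Set V, A.Nonempty → Cl N O A → A = Set.univ

/-- the orbit of `x` -/
def orb {V : Type} (N O : V → V) (x : V) : Set V := {y | ∀ A : Set V, Cl N O A → x ∈ A → y ∈ A}

/-- at most `m` orbits -/
def Few {V : Type} (N O : V → V) (m : ℕ) : Prop :=
  ∀ P : Finset V, (∀ x ∈ P, ∀ y ∈ P, x ≠ y → y ∉ orb N O x) → P.card ≤ m

/-- the local problem for `2 d` points and `c` matchings -/
def Loc (d c : ℕ) : Prop := ∀ (V : Type) [Fintype V] [DecidableEq V], Fintype.card V = 2 * d →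
  ∀ O : Fin c → V → V, (∀ j, Inv0 (O j)) →
    ∃ N : Fin c → V → V, (∀ j, Inv0 (N j)) ∧ (∀ i j, i ≠ j → ∀ x, N i x ≠ N j x) ∧
      ∀ j, Conn (N j) (O j)

/-- the matching `x + y = t` of the complete graph on `Z_{2d-1}` and the point `none` -/
def gk (d : ℕ) (t : ZMod (2 * d - 1)) : Option (ZMod (2 * d - 1)) → Option (ZMod (2 * d - 1))
  | none => some (t * (d : ZMod (2 * d - 1)))
  | some x => if 2 * x = t then none else some (t - x)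

/-- conjugate -/
def cj {V W : Type} (e : V ≃ W) (O : V → V) : W → W := fun x => e (O (e.symm x))

/-- good position of the matching `O` -/
def Good (d m θ κ : ℕ) (S : Finset (ZMod (2 * d - 1)))
    (O : Option (ZMod (2 * d - 1)) → Option (ZMod (2 * d - 1))) : Prop :=
  (∀ t, Few (gk d t) O m) ∧
  (∀ t, t ∉ S → ∀ Z : Set (Option (ZMod (2 * d - 1))), Cl (gk d t) O Z → 2 * d ≤ m * Z.ncard →
    ∀ x, some x ∉ Z → θ ≤ {s | s ∈ S ∧ 2 * t - s ∈ S ∧ some (s - x) ∈ Z}.ncard) ∧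
  (∀ x y, x ≠ y → {t | O (gk d t x) = gk d t y}.ncard ≤ κ)

/-- E1 -/
def S_GK : Prop := ∀ d : ℕ, 1 ≤ d →
  (∀ t, Inv0 (gk d t)) ∧ (∀ t s x, gk d t x = gk d s x → t = s)

/-- E2 : flips towards one orbit -/
def S_STAR : Prop := ∀ (V : Type) [Fintype V] [DecidableEq V] (N O : V → V) (X : Set V)
  (R : V → V → Prop) (m : ℕ) (z : V) (P : Finset V), Inv0 N → Inv0 O →
  (∀ a b, R a b → R b a) → P.card ≤ m →
  (∀ y, y ∈ orb N O z ∨ ∃ x ∈ P, y ∈ orb N O x) → (∀ x ∈ P, x ∉ orb N O z) →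
  (∀ x ∈ P, ∀ y ∈ P, x ≠ y → y ∉ orb N O x) → (∀ x ∈ P, x ∉ X ∧ N x ∉ X) →
  (∀ x ∈ P, 2 * m ≤
    {c | c ∈ orb N O z ∧ c ∉ X ∧ N c ∉ X ∧ R x c ∧ R (N x) (N c)}.ncard) →
  ∃ N' : V → V, Inv0 N' ∧ Conn N' O ∧ (∀ a, N' a = N a ∨ (a ∉ X ∧ R a (N' a))) ∧
    {a | N' a ≠ N a}.ncard ≤ 4 * m

/-- E3 : few classes are bad for the set `X` -/
def S_ASSIGN : Prop := ∀ (d κ : ℕ), 1 ≤ d →
  ∀ (O : Option (ZMod (2 * d - 1)) → Option (ZMod (2 * d - 1)))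
  (X : Set (Option (ZMod (2 * d - 1)))), Inv0 O →
  (∀ x y, x ≠ y → {t | O (gk d t x) = gk d t y}.ncard ≤ κ) →
  {t | ∃ x, ∀ y ∈ orb (gk d t) O x, y ∈ X ∨ gk d t y ∈ X}.ncard ≤ X.ncard ^ 2 * (κ + 2)

/-- E4 : all the tours, one after the other -/
def S_MAIN : Prop := ∀ (d c m θ κ K ξ : ℕ) (S : Finset (ZMod (2 * d - 1)))
  (O : Fin c → Option (ZMod (2 * d - 1)) → Option (ZMod (2 * d - 1))), 1 ≤ d → 1 ≤ m →
  (∀ j, Inv0 (O j)) → (∀ j, Good d m θ κ S (O j)) → 4 * m * c < ξ * K →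
  c + S.card + ξ ^ 2 * (κ + 2) ≤ 2 * d - 1 → 2 * m + 2 * ξ + 2 * K ≤ θ →
  ∃ N : Fin c → Option (ZMod (2 * d - 1)) → Option (ZMod (2 * d - 1)),
    (∀ j, Inv0 (N j)) ∧ (∀ i j, i ≠ j → ∀ x, N i x ≠ N j x) ∧ ∀ j, Conn (N j) (O j)

/-- E5 : counting relabellings with many orbits -/
def S_CNTA : Prop := ∀ (d m : ℕ) (V : Type) [Fintype V] [DecidableEq V] (N O : V → V),
  Fintype.card V = 2 * d → Inv0 N → Inv0 O →
  {p : Equiv.Perm V | ¬ Few N (cj p O) m}.ncard * 2 ^ (m + 1) ≤ (d + 1) * (2 * d).factorial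

/-- E6 : counting relabellings for which a large closed set avoids `G` -/
def S_CNTB : Prop := ∀ (d m : ℕ) (V : Type) [Fintype V] [DecidableEq V] (N O : V → V)
  (G : Finset V), Fintype.card V = 2 * d → 1 ≤ m → Inv0 N → Inv0 O → (∀ x ∈ G, N x ∉ G) →
  {p : Equiv.Perm V | ∃ Z : Set V, Cl N (cj p O) Z ∧ 2 * d ≤ m * Z.ncard ∧
    ∀ x ∈ G, x ∉ Z}.ncard * m ^ G.card ≤ (d + 1) * (m - 1) ^ G.card * (2 * d).factorial

/-- E7 : counting relabellings with many prescribed edges -/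
def S_CNTC : Prop := ∀ (d h : ℕ) (V T : Type) [Fintype V] [DecidableEq V] [Fintype T]
  (O : V → V) (a b : T → V), Fintype.card V = 2 * d → Fintype.card T ≤ 2 * d - 1 → Inv0 O →
  Function.Injective a → Function.Injective b → (∀ t, a t ≠ b t) → 3 * h ≤ 2 * d →
  {p : Equiv.Perm V | 2 * h ≤ {t | cj p O (a t) = b t}.ncard}.ncard * h.factorial ≤
    2 ^ h * (2 * d).factorial

/-- E8 : splitting into groups -/
def S_GRP : Prop := ∀ (V : Type) [Fintype V] [DecidableEq V] (N : V → V) (C : Set V) (θ g : ℕ),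
  Inv0 N → 2 * θ * g ≤ C.ncard → ∃ G : Fin θ → Finset V, (∀ i, ∀ x ∈ G i, x ∈ C ∧ N x ∉ G i) ∧
    (∀ i, (G i).card = g) ∧ ∀ i j, i ≠ j → Disjoint (G i) (G j)

/-- E9 : a good relabelling exists -/
def S_PI : Prop := ∀ (d c m g θ h : ℕ) (S : Finset (ZMod (2 * d - 1))), 1 ≤ d → 1 ≤ m →
  4 * (2 * d) * c * (d + 1) ≤ 2 ^ (m + 1) →
  4 * (2 * d) * c * (2 * d) * θ * (d + 1) * (m - 1) ^ g ≤ m ^ g →
  4 * c * (2 * d) ^ 2 * 2 ^ h ≤ h.factorial → 3 * h ≤ 2 * d →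
  (∀ u : ZMod (2 * d - 1), 2 * θ * g ≤ {s | s ∈ S ∧ u - s ∈ S}.ncard) →
  ∀ (V : Type) [Fintype V] [DecidableEq V], Fintype.card V = 2 * d →
  ∀ O : Fin c → V → V, (∀ j, Inv0 (O j)) →
  ∃ e : V ≃ Option (ZMod (2 * d - 1)), ∀ j, Good d m θ (2 * h) S (cj e (O j))

/-- E10 : the reservoir -/
def S_RES : Prop := ∀ d q : ℕ, 1 ≤ d → 1 ≤ q → ∃ S : Finset (ZMod (2 * d - 1)),
  S.card ≤ 2 * (2 * d / q) + 1 ∧
  ∀ u : ZMod (2 * d - 1), 2 * d / q ^ 2 ≤ {s | s ∈ S ∧ u - s ∈ S}.ncard + 1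

/-- E11 : parameters -/
def S_PARAM : Prop := ∀ ε : ℝ, 0 < ε → ∃ d₀ : ℕ, ∀ d : ℕ, d₀ ≤ d → ∀ c : ℕ,
  (c : ℝ) ≤ (2 - ε) * d → ∃ q m g θ h K ξ : ℕ, 1 ≤ q ∧ 1 ≤ m ∧
  4 * (2 * d) * c * (d + 1) ≤ 2 ^ (m + 1) ∧
  4 * (2 * d) * c * (2 * d) * θ * (d + 1) * (m - 1) ^ g ≤ m ^ g ∧
  4 * c * (2 * d) ^ 2 * 2 ^ h ≤ h.factorial ∧ 3 * h ≤ 2 * d ∧
  2 * θ * g + 1 ≤ 2 * d / q ^ 2 ∧ 4 * m * c < ξ * K ∧
  c + (2 * (2 * d / q) + 1) + ξ ^ 2 * (2 * h + 2) ≤ 2 * d - 1 ∧ 2 * m + 2 * ξ + 2 * K ≤ θ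

/-- E12 : from the local problem to graphs; `H` half-edges, `α` the other half, `b` the vertex -/
def S_GLOB : Prop := ∀ d c : ℕ, (∀ d', d ≤ d' → Loc d' c) →
  ∀ (H V : Type) [Fintype H] [DecidableEq H] [Fintype V] [DecidableEq V] (α : H → H) (b : H → V),
  Inv0 α → (∀ A : Set V, A.Nonempty → (∀ h, b h ∈ A → b (α h) ∈ A) → A = Set.univ) →
  (∀ v, Even {h | b h = v}.ncard) → (∀ v, 2 * d ≤ {h | b h = v}.ncard) →
  ∃ τ : Fin c → H → H, (∀ j, Inv0 (τ j)) ∧ (∀ j h, b (τ j h) = b h) ∧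
    (∀ i j, i ≠ j → ∀ h, τ i h ≠ τ j h) ∧ ∀ j, Conn α (τ j)

/-- E13 : from a transitive pair to a closed walk -/
def S_WALK : Prop := ∀ (H : Type) [Fintype H] [DecidableEq H] [Nonempty H] (α τ : H → H),
  Inv0 α → Inv0 τ → Conn α τ → ∃ (n : ℕ) (w : ZMod n → H), n ≠ 0 ∧ 2 * n = Fintype.card H ∧
    (∀ i, w (i + 1) = τ (α (w i))) ∧ ∀ h, ∃! i, w i = h ∨ w i = α h

/-- The local theorem. -/
theorem local_thm (hmain : S_MAIN) (hpi : S_PI) (hres : S_RES) (hpar : S_PARAM) :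
    ∀ ε : ℝ, 0 < ε → ∃ d₀ : ℕ, 1 ≤ d₀ ∧ ∀ d : ℕ, d₀ ≤ d → ∀ c : ℕ, (c : ℝ) ≤ (2 - ε) * d →
      Loc d c := by
  intro ε hε
  obtain ⟨d₀, h0⟩ := hpar ε hε
  refine ⟨max 1 d₀, le_max_left _ _, fun d hd c hc => ?_⟩
  have hd1 : 1 ≤ d := (le_max_left _ _).trans hd
  obtain ⟨q, m, g, θ, h, K, ξ, hq, hm, i1, i2, i3, i4, i5, i6, i7, i8⟩ :=
    h0 d ((le_max_right _ _).trans hd) c hc
  obtain ⟨S, hS1, hS2⟩ := hres d q hd1 hq
  intro V _ _ hV O hO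
  obtain ⟨e, he⟩ := hpi d c m g θ h S hd1 hm i1 i2 i3 i4 (fun u => by have := hS2 u; omega)
    V hV O hO
  have hO' : ∀ j, Inv0 (cj e (O j)) := by
    intro j
    refine ⟨fun x => ?_, fun x hx => ?_⟩
    · simp [cj, (hO j).1]
    · have h1 := congrArg e.symm hx
      simp only [cj, Equiv.symm_apply_apply] at h1
      exact (hO j).2 _ h1
  obtain ⟨N, hN1, hN2, hN3⟩ := hmain d c m θ (2 * h) K ξ S (fun j => cj e (O j)) hd1 hm hO' he i6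
    (by omega) i8
  refine ⟨fun j => cj e.symm (N j), fun j => ⟨fun x => ?_, fun x hx => ?_⟩, fun i j hij x hx => ?_,
    fun j A hA hcl => ?_⟩
  · simp [cj, (hN1 j).1]
  · have h1 := congrArg e hx
    simp only [cj, Equiv.apply_symm_apply, Equiv.symm_symm] at h1
    exact (hN1 j).2 _ h1
  · have h1 := congrArg e hx
    simp only [cj, Equiv.apply_symm_apply, Equiv.symm_symm] at h1
    exact hN2 i j hij _ h1
  · have h1 := hN3 j (e '' A) (hA.image e) ⟨?_, ?_⟩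
    · ext x
      refine ⟨fun _ => trivial, fun _ => ?_⟩
      have h2 : e x ∈ e '' A := h1 ▸ Set.mem_univ _
      obtain ⟨y, hy, hxy⟩ := h2
      rwa [← e.injective hxy]
    · rintro _ ⟨x, hx, rfl⟩
      have h2 := hcl.1 x hx
      refine ⟨_, h2, ?_⟩
      simp [cj]
    · rintro _ ⟨x, hx, rfl⟩
      refine ⟨_, hcl.2 x hx, ?_⟩
      simp [cj]

end Pool.Agent.H41.ET
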