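import Pool.Agent.H41.ET.Defs

set_option autoImplicit false

/-!
# Parameters with a power saving
-/

namespace Pool.Agent.H41.ET

/-- the numerical conditions -/
def Params (d c : ℕ) : Prop := ∃ q m g θ h K ξ : ℕ, 1 ≤ q ∧ 1 ≤ m ∧
  4 * (2 * d) * c * (d + 1) ≤ 2 ^ (m + 1) ∧
  4 * (2 * d) * c * (2 * d) * θ * (d + 1) * (m - 1) ^ g ≤ m ^ g ∧
  4 * c * (2 * d) ^ 2 * 2 ^ h ≤ h.factorial ∧ 3 * h ≤ 2 * d ∧
  2 * θ * g + 1 ≤ 2 * d / q ^ 2 ∧ 4 * m * c < ξ * K ∧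
  c + (2 * (2 * d / q) + 1) + ξ ^ 2 * (2 * h + 2) ≤ 2 * d - 1 ∧ 2 * m + 2 * ξ + 2 * K ≤ θ

/-- E14 -/
def S_PARAM2 : Prop := ∃ d₀ : ℕ, ∀ d : ℕ, d₀ ≤ d → ∀ c : ℕ,
  (c : ℝ) ≤ 2 * d - (d : ℝ) ^ (5 / 6 : ℝ) → Params d c

theorem loc_of_params (hmain : S_MAIN) (hpi : S_PI) (hres : S_RES) (d c : ℕ) (hd1 : 1 ≤ d)
    (hp : Params d c) : Loc d c := by
  obtain ⟨q, m, g, θ, h, K, ξ, hq, hm, i1, i2, i3, i4, i5, i6, i7, i8⟩ := hp
  obtain ⟨S, hS1, hS2⟩ := hres d q hd1 hq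
  intro V _ _ hV O hO
  obtain ⟨e, he⟩ := hpi d c m g θ h S hd1 hm i1 i2 i3 i4 (fun u => by have := hS2 u; omega)
    V hV O hO
  have hO' : ∀ j, Inv0 (cj e (O j)) := by
    intro j
    refine ⟨fun x => ?_, fun x hx => ?_⟩
    · simp [cj, (hO j).1]
    · have h1 := congrArg e.symm hx
      simp only [cj, Equiv.symm_apply_apply] at h1
      exact (hO j).2 _ h1
  obtain ⟨N, hN1, hN2, hN3⟩ := hmain d c m θ (2 * h) K ξ S (fun j => cj e (O j)) hd1 hm hO' he i6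
    (by omega) i8
  refine ⟨fun j => cj e.symm (N j), fun j => ⟨fun x => ?_, fun x hx => ?_⟩, fun i j hij x hx => ?_,
    fun j A hA hcl => ?_⟩
  · simp [cj, (hN1 j).1]
  · have h1 := congrArg e hx
    simp only [cj, Equiv.apply_symm_apply, Equiv.symm_symm] at h1
    exact (hN1 j).2 _ h1
  · have h1 := congrArg e hx
    simp only [cj, Equiv.apply_symm_apply, Equiv.symm_symm] at h1
    exact hN2 i j hij _ h1
  · have h1 := hN3 j (e '' A) (hA.image e) ⟨?_, ?_⟩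
    · ext x
      refine ⟨fun _ => trivial, fun _ => ?_⟩
      have h2 : e x ∈ e '' A := h1 ▸ Set.mem_univ _
      obtain ⟨y, hy, hxy⟩ := h2
      rwa [← e.injective hxy]
    · rintro _ ⟨x, hx, rfl⟩
      have h2 := hcl.1 x hx
      refine ⟨_, h2, ?_⟩
      simp [cj]
    · rintro _ ⟨x, hx, rfl⟩
      refine ⟨_, hcl.2 x hx, ?_⟩
      simp [cj]

end Pool.Agent.H41.ET
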