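import Pool.Agent.H41.ET.Defs

set_option autoImplicit false

/-!
# The reservoir
-/

namespace Pool.Agent.H41.ET

theorem res : S_RES := by
  classical
  intro d q hd hq
  have hn : NeZero (2 * d - 1) := ⟨by omega⟩
  rcases Nat.lt_or_ge q 2 with hq2 | hq2
  · have hq1 : q = 1 := by omega
    subst hq1
    refine ⟨Finset.univ, ?_, fun u => ?_⟩
    · rw [Finset.card_univ, ZMod.card]
      simp only [Nat.div_one]
      omega
    · have h1 : {s : ZMod (2 * d - 1) | s ∈ (Finset.univ : Finset (ZMod (2 * d - 1))) ∧
          u - s ∈ (Finset.univ : Finset (ZMod (2 * d - 1)))} = Set.univ := by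
        ext s; simp
      rw [h1, Set.ncard_univ, Nat.card_eq_fintype_card, ZMod.card]
      simp only [one_pow, Nat.div_one]
      omega
  · set L : ℕ := 2 * d / q with hL
    set M : ℕ := 2 * d / q ^ 2 with hM
    set I : ℕ := (2 * d - 2) / q with hI
    have hqpos : 0 < q := by omega
    have hML : M = L / q := by rw [hM, hL, Nat.div_div_eq_div_mul, pow_two]
    have hqM : q * M ≤ L := by rw [hML]; exact Nat.mul_div_le _ _
    have hqL : q * L ≤ 2 * d := Nat.mul_div_le _ _
    have hqI : q * I ≤ 2 * d - 2 := Nat.mul_div_le _ _
    have hqI2 : 2 * d - 2 < q * I + q := by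
      have := Nat.lt_mul_div_succ (2 * d - 2) hqpos
      rw [← hI] at this
      nlinarith
    have hIL : I ≤ L := Nat.div_le_div_right (by omega)
    have hMI : M ≤ I + 1 := by
      by_contra hcon
      push Not at hcon
      have h1 : q * (I + 1) ≤ q * M := Nat.mul_le_mul_left _ (by omega)
      have h2 : 2 * L ≤ q * L := Nat.mul_le_mul_right _ hq2
      have h3 : q * (I + 1) = q * I + q := by ring
      omega
    clear_value L M I
    set A : Finset (ZMod (2 * d - 1)) :=
      (Finset.range (L + 1)).image (fun i : ℕ => ((q * i : ℕ) : ZMod (2 * d - 1))) with hA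
    set B : Finset (ZMod (2 * d - 1)) :=
      (Finset.range L).image (fun i : ℕ => ((i : ℕ) : ZMod (2 * d - 1))) with hB
    refine ⟨A ∪ B, ?_, fun u => ?_⟩
    · have h1 : A.card ≤ L + 1 := by
        have := Finset.card_image_le (s := Finset.range (L + 1))
          (f := (fun i : ℕ => ((q * i : ℕ) : ZMod (2 * d - 1))))
        rwa [Finset.card_range] at this
      have h2 : B.card ≤ L := by
        have := Finset.card_image_le (s := Finset.range L)
          (f := (fun i : ℕ => ((i : ℕ) : ZMod (2 * d - 1))))
        rwa [Finset.card_range] at this
      have h3 := Finset.card_union_le A B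
      omega
    · set v : ℕ := u.val with hv
      have huv : u = ((v : ℕ) : ZMod (2 * d - 1)) := (ZMod.natCast_zmod_val u).symm
      have hvn : v < 2 * d - 1 := ZMod.val_lt u
      set a : ℕ := v / q with ha
      have hqa : q * a ≤ v := Nat.mul_div_le _ _
      have hqa2 : v < q * a + q := by
        have := Nat.lt_mul_div_succ v hqpos
        rw [← ha] at this
        nlinarith
      have haI : a ≤ I := by
        rw [ha, hI]
        exact Nat.div_le_div_right (by omega)
      clear_value a
      let f : ℕ → ℕ := fun k => if k ≤ a then a - k else I + 1 + a - k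
      have hfI : ∀ k, f k ≤ I := by
        intro k
        simp only [f]
        split_ifs <;> omega
      have hfinj : ∀ k, k < M → ∀ k', k' < M → f k = f k' → k = k' := by
        intro k hk k' hk' h
        simp only [f] at h
        split_ifs at h <;> omega
      have hcast : ∀ x y : ℕ, x < 2 * d - 1 → y < 2 * d - 1 →
          ((x : ℕ) : ZMod (2 * d - 1)) = ((y : ℕ) : ZMod (2 * d - 1)) → x = y := by
        intro x y hx hy h
        rw [ZMod.natCast_eq_natCast_iff'] at h
        rwa [Nat.mod_eq_of_lt hx, Nat.mod_eq_of_lt hy] at h
      have hsub : (((Finset.range M).image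
          (fun k => ((q * f k : ℕ) : ZMod (2 * d - 1)))) : Set (ZMod (2 * d - 1))) ⊆
          {s | s ∈ A ∪ B ∧ u - s ∈ A ∪ B} := by
        intro s hs
        rw [Finset.mem_coe, Finset.mem_image] at hs
        obtain ⟨k, hk, rfl⟩ := hs
        rw [Finset.mem_range] at hk
        have hkM : q * k + q ≤ q * M := by
          have h1 : q * (k + 1) ≤ q * M := Nat.mul_le_mul_left _ (by omega)
          have h3 : q * (k + 1) = q * k + q := by ring
          omega
        refine ⟨Finset.mem_union_left _ (Finset.mem_image.2 ⟨f k, Finset.mem_range.2 ?_, rfl⟩),
          Finset.mem_union_right _ ?_⟩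
        · have := hfI k
          omega
        · by_cases hka : k ≤ a
          · have hf : f k = a - k := by simp [f, hka]
            have hqk : q * (a - k) = q * a - q * k := Nat.mul_sub _ _ _
            have hqk2 : q * k ≤ q * a := Nat.mul_le_mul_left _ hka
            refine Finset.mem_image.2 ⟨v - q * (a - k), Finset.mem_range.2 (by omega), ?_⟩
            rw [hf, huv]
            rw [Nat.cast_sub (by omega)]
          · have hf : f k = I + 1 + a - k := by simp [f, hka]
            have hqk : q * (I + 1 + a - k) = q * I + q + q * a - q * k := by
              rw [Nat.mul_sub]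
              congr 1
              ring
            have hqk2 : q * k ≤ q * I + q := by
              have h1 : q * k ≤ q * (I + 1) := Nat.mul_le_mul_left _ (by omega)
              have h3 : q * (I + 1) = q * I + q := by ring
              omega
            have hqk3 : q * (a + 1) ≤ q * k := Nat.mul_le_mul_left _ (by omega)
            have hqk4 : q * (a + 1) = q * a + q := by ring
            refine Finset.mem_image.2 ⟨v + (2 * d - 1) - q * (I + 1 + a - k),
              Finset.mem_range.2 (by omega), ?_⟩
            rw [hf, huv]
            rw [Nat.cast_sub (by omega), Nat.cast_add, ZMod.natCast_self, add_zero]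
      have hcard : ((Finset.range M).image
          (fun k => ((q * f k : ℕ) : ZMod (2 * d - 1)))).card = M := by
        rw [Finset.card_image_of_injOn, Finset.card_range]
        intro k hk k' hk' h
        simp only [Finset.coe_range, Set.mem_Iio] at hk hk'
        have hx : q * f k < 2 * d - 1 := by
          have := Nat.mul_le_mul_left q (hfI k)
          omega
        have hy : q * f k' < 2 * d - 1 := by
          have := Nat.mul_le_mul_left q (hfI k')
          omega
        have h1 := hcast _ _ hx hy h
        exact hfinj k hk k' hk' (Nat.eq_of_mul_eq_mul_left hqpos h1)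
      have h5 := Set.ncard_le_ncard hsub (Set.toFinite _)
      rw [Set.ncard_coe_finset, hcard] at h5
      omega

end Pool.Agent.H41.ET
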