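import Pool.Agent.H41.ET.Tours
import Pool.Agent.H41.ET.Defs2

set_option autoImplicit false

/-!
# The assembly with the power saving
-/

namespace Pool.Agent.H41.ET

theorem mono_aux {d d' : ℕ} (h : d ≤ d') :
    2 * (d : ℝ) - (d : ℝ) ^ (5 / 6 : ℝ) ≤ 2 * (d' : ℝ) - (d' : ℝ) ^ (5 / 6 : ℝ) := by
  obtain ⟨k, rfl⟩ := Nat.exists_eq_add_of_le h
  have h1 : ((d : ℝ) + (k : ℝ)) ^ (5 / 6 : ℝ) ≤ (d : ℝ) ^ (5 / 6 : ℝ) + (k : ℝ) ^ (5 / 6 : ℝ) := by
    have := NNReal.rpow_add_le_add_rpow (d : NNReal) (k : NNReal) (p := (5 / 6 : ℝ)) (by norm_num)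
      (by norm_num)
    exact_mod_cast this
  have h2 : (k : ℝ) ^ (5 / 6 : ℝ) ≤ k := by
    rcases Nat.eq_zero_or_pos k with rfl | hk
    · rw [Nat.cast_zero, Real.zero_rpow (by norm_num)]
    · have hk1 : (1 : ℝ) ≤ k := by exact_mod_cast hk
      calc (k : ℝ) ^ (5 / 6 : ℝ) ≤ (k : ℝ) ^ (1 : ℝ) :=
            Real.rpow_le_rpow_of_exponent_le hk1 (by norm_num)
        _ = k := Real.rpow_one _
  have h3 : (0 : ℝ) ≤ k := Nat.cast_nonneg _
  push_cast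
  linarith

theorem tours_of_loc (hglob : S_GLOB) (hwalk : S_WALK) (d c : ℕ) (hd : 1 ≤ d)
    (hl : ∀ d', d ≤ d' → Loc d' c)
    (V H : Type) [Fintype V] [Nonempty V] [Fintype H] (G : Multigraph V H) (hcon : G.Connected)
    (heven : ∀ v, Even (G.degree v)) (hdeg : ∀ v, 2 * d ≤ G.degree v) :
    ∃ (n : Fin c → ℕ) (w : ∀ j, ZMod (n j) → H),
      (∀ j, G.IsEulerTour (w j)) ∧
      ∀ i j, i ≠ j → Disjoint (G.transitions (w i)) (G.transitions (w j)) := by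
  classical
  obtain ⟨τ, t1, t2, t3, t4⟩ := hglob d c hl
    H V G.other G.vert ⟨G.other_other, G.other_ne⟩ hcon heven hdeg
  have hne : Nonempty H := by
    obtain ⟨v⟩ := ‹Nonempty V›
    have h5 := hdeg v
    by_contra hcon'
    rw [not_nonempty_iff] at hcon'
    have h7 : G.degree v = 0 := by
      unfold Multigraph.degree
      rw [Set.ncard_eq_zero]
      ext h
      exact (hcon'.false h).elim
    omega
  have hw := fun j => hwalk H G.other (τ j) ⟨G.other_other, G.other_ne⟩ (t1 j) (t4 j)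
  choose n w hn hcard hstep honce using hw
  refine ⟨n, w, fun j => ⟨hn j, fun i => ?_, honce j⟩, fun i j hij => ?_⟩
  · rw [hstep j i, t2 j]
  · rw [Set.disjoint_left]
    rintro _ ⟨a, rfl⟩ ⟨a', ha'⟩
    simp only [hstep] at ha'
    rw [Sym2.eq_iff] at ha'
    rcases ha' with ⟨e1, e2⟩ | ⟨e1, e2⟩
    · rw [e1] at e2
      exact t3 i j hij _ e2.symm
    · have e3 := congrArg (τ j) e1
      rw [e2] at e3
      have e4 := congrArg (τ j) e3
      rw [(t1 j).1] at e4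
      exact t3 i j hij _ e4.symm

theorem strong_thm (hmain : S_MAIN) (hpi : S_PI) (hres : S_RES) (hpar : S_PARAM2)
    (hglob : S_GLOB) (hwalk : S_WALK) :
    ∃ C : ℝ, 0 < C ∧ ∀ d : ℕ,
      ∀ (V H : Type) [Fintype V] [Nonempty V] [Fintype H] (G : Multigraph V H), G.Connected →
        (∀ v, Even (G.degree v)) → (∀ v, 2 * d ≤ G.degree v) →
        ∃ (c : ℕ) (n : Fin c → ℕ) (w : ∀ j, ZMod (n j) → H),
          2 * (d : ℝ) - C * (d : ℝ) ^ (5 / 6 : ℝ) ≤ c ∧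
          (∀ j, G.IsEulerTour (w j)) ∧
          ∀ i j, i ≠ j → Disjoint (G.transitions (w i)) (G.transitions (w j)) := by
  classical
  obtain ⟨d₀, hd₀⟩ := hpar
  refine ⟨max (2 : ℝ) (2 * (d₀ : ℝ)), by positivity, fun d V H _ _ _ G hcon heven hdeg => ?_⟩
  rcases Nat.eq_zero_or_pos d with rfl | hdpos
  · refine ⟨0, fun j => j.elim0, fun j => j.elim0, ?_, fun j => j.elim0, fun j => j.elim0⟩
    rw [Nat.cast_zero, Real.zero_rpow (by norm_num)]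
    simp
  have hd1 : (1 : ℝ) ≤ d := by exact_mod_cast hdpos
  have hpow : (1 : ℝ) ≤ (d : ℝ) ^ (5 / 6 : ℝ) := Real.one_le_rpow hd1 (by norm_num)
  rcases Nat.lt_or_ge d d₀ with hlt | hge
  · refine ⟨0, fun j => j.elim0, fun j => j.elim0, ?_, fun j => j.elim0, fun j => j.elim0⟩
    have h1 : (d : ℝ) ≤ d₀ := by exact_mod_cast hlt.le
    have h2 : (2 * d₀ : ℝ) ≤ max 2 (2 * (d₀ : ℝ)) := le_max_right _ _
    have h3 : (0 : ℝ) ≤ max 2 (2 * (d₀ : ℝ)) := by positivity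
    have h4 : max 2 (2 * (d₀ : ℝ)) * 1 ≤ max 2 (2 * (d₀ : ℝ)) * (d : ℝ) ^ (5 / 6 : ℝ) :=
      mul_le_mul_of_nonneg_left hpow h3
    rw [Nat.cast_zero]
    linarith
  · have hpd : (d : ℝ) ^ (5 / 6 : ℝ) ≤ d := by
      calc (d : ℝ) ^ (5 / 6 : ℝ) ≤ (d : ℝ) ^ (1 : ℝ) :=
            Real.rpow_le_rpow_of_exponent_le hd1 (by norm_num)
        _ = d := Real.rpow_one _
    set c : ℕ := ⌊2 * (d : ℝ) - (d : ℝ) ^ (5 / 6 : ℝ)⌋₊ with hc
    have hcle : (c : ℝ) ≤ 2 * (d : ℝ) - (d : ℝ) ^ (5 / 6 : ℝ) := Nat.floor_le (by linarith)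
    have hcge : 2 * (d : ℝ) - (d : ℝ) ^ (5 / 6 : ℝ) < c + 1 := Nat.lt_floor_add_one _
    obtain ⟨n, w, h1, h2⟩ := tours_of_loc hglob hwalk d c hdpos (fun d' hd' =>
      loc_of_params hmain hpi hres d' c (hdpos.trans_le hd')
        (hd₀ d' (hge.trans hd') c (hcle.trans (mono_aux hd')))) V H G hcon heven hdeg
    refine ⟨c, n, w, ?_, h1, h2⟩
    have h2 : (2 : ℝ) ≤ max 2 (2 * (d₀ : ℝ)) := le_max_left _ _
    have h4 : 2 * (d : ℝ) ^ (5 / 6 : ℝ) ≤ max 2 (2 * (d₀ : ℝ)) * (d : ℝ) ^ (5 / 6 : ℝ) :=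
      mul_le_mul_of_nonneg_right h2 (by linarith)
    linarith

end Pool.Agent.H41.ET
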