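import Pool.Agent.H41.ET.Defs

set_option autoImplicit false

/-!
# Multigraphs, Euler tours, compatibility; the final assembly
-/

namespace Pool.Agent.H41.ET

/-- A multigraph (loops and multiple edges allowed) with vertex set `V`, given by the set `H` of its
half-edges (edge-ends): `other h` is the other half of the edge to which `h` belongs, `vert h` is
the vertex at which `h` is attached. The edges are the pairs `{h, other h}`. -/
structure Multigraph (V H : Type) where
  /-- the other half of the same edge -/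
  other : H → H
  /-- the vertex of a half-edge -/
  vert : H → V
  other_other : ∀ h, other (other h) = h
  other_ne : ∀ h, other h ≠ h

variable {V H : Type}

/-- The multigraph is connected: a nonempty set of vertices which contains with one end of an edge
also the other end is the set of all vertices. -/
def Multigraph.Connected (G : Multigraph V H) : Prop :=
  ∀ A : Set V, A.Nonempty → (∀ h, G.vert h ∈ A → G.vert (G.other h) ∈ A) → A = Set.univ

/-- The degree of a vertex: the number of half-edges at the vertex. -/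
noncomputable def Multigraph.degree (G : Multigraph V H) (v : V) : ℕ := {h | G.vert h = v}.ncard

/-- An Euler tour: a closed walk, whose `i`-th step (`i` modulo `n`) runs along an edge from its
half `w i` to its other half `other (w i)`, the next step starting at the vertex reached, and which
traverses every edge exactly once. -/
structure Multigraph.IsEulerTour (G : Multigraph V H) {n : ℕ} (w : ZMod n → H) : Prop where
  pos : n ≠ 0
  step : ∀ i, G.vert (w (i + 1)) = G.vert (G.other (w i))
  once : ∀ h, ∃! i, w i = h ∨ w i = G.other h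

/-- The transitions of a tour: the unordered pairs of edge-ends by which the tour enters and leaves
a vertex. -/
def Multigraph.transitions (G : Multigraph V H) {n : ℕ} (w : ZMod n → H) : Set (Sym2 H) :=
  Set.range fun i => s(G.other (w i), w (i + 1))

theorem final_thm
    (hloc : ∀ ε : ℝ, 0 < ε → ∃ d₀ : ℕ, 1 ≤ d₀ ∧ ∀ d : ℕ, d₀ ≤ d → ∀ c : ℕ,
      (c : ℝ) ≤ (2 - ε) * d → Loc d c) (hglob : S_GLOB) (hwalk : S_WALK) :
    ∀ ε : ℝ, 0 < ε → ∃ d₀ : ℕ, ∀ d : ℕ, d₀ ≤ d →
      ∀ (V H : Type) [Fintype V] [Nonempty V] [Fintype H] (G : Multigraph V H), G.Connected →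
        (∀ v, Even (G.degree v)) → (∀ v, 2 * d ≤ G.degree v) →
        ∃ (c : ℕ) (n : Fin c → ℕ) (w : ∀ j, ZMod (n j) → H), (2 - ε) * d ≤ c ∧
          (∀ j, G.IsEulerTour (w j)) ∧
          ∀ i j, i ≠ j → Disjoint (G.transitions (w i)) (G.transitions (w j)) := by
  classical
  intro ε hε
  set ε₁ : ℝ := min ε 1 with hε₁
  have h1 : 0 < ε₁ := lt_min hε one_pos
  have h2 : ε₁ ≤ 1 := min_le_right _ _
  have h3 : ε₁ ≤ ε := min_le_left _ _
  obtain ⟨d₀, hd₀, hl⟩ := hloc (ε₁ / 2) (by linarith)
  obtain ⟨d₁, hd₁⟩ := exists_nat_ge (2 / ε₁)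
  refine ⟨max d₀ d₁, fun d hd V H _ _ _ G hcon heven hdeg => ?_⟩
  have hd0 : d₀ ≤ d := (le_max_left _ _).trans hd
  have hd1 : d₁ ≤ d := (le_max_right _ _).trans hd
  have hdR : 2 / ε₁ ≤ (d : ℝ) := hd₁.trans (by exact_mod_cast hd1)
  have hdR' : 2 ≤ ε₁ * d := by
    have := (div_le_iff₀ h1).1 hdR
    linarith
  set c : ℕ := ⌊(2 - ε₁ / 2) * d⌋₊ with hc
  have hnn : (0 : ℝ) ≤ (2 - ε₁ / 2) * d := mul_nonneg (by linarith) (Nat.cast_nonneg _)
  have hcle : (c : ℝ) ≤ (2 - ε₁ / 2) * d := Nat.floor_le hnn
  have hcge : (2 - ε₁ / 2) * d < c + 1 := Nat.lt_floor_add_one _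
  have hdn : (0 : ℝ) ≤ d := Nat.cast_nonneg _
  obtain ⟨τ, t1, t2, t3, t4⟩ := hglob d c (fun d' hd' => hl d' (hd0.trans hd') c
    (hcle.trans (mul_le_mul_of_nonneg_left (by exact_mod_cast hd') (by linarith))))
    H V G.other G.vert ⟨G.other_other, G.other_ne⟩ hcon heven hdeg
  have hne : Nonempty H := by
    obtain ⟨v⟩ := ‹Nonempty V›
    have h5 := hdeg v
    have h6 : 1 ≤ d := hd₀.trans hd0
    by_contra hcon'
    rw [not_nonempty_iff] at hcon'
    have h7 : G.degree v = 0 := by
      unfold Multigraph.degree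
      rw [Set.ncard_eq_zero]
      ext h
      exact (hcon'.false h).elim
    omega
  have hw := fun j => hwalk H G.other (τ j) ⟨G.other_other, G.other_ne⟩ (t1 j) (t4 j)
  choose n w hn hcard hstep honce using hw
  refine ⟨c, n, w, ?_, fun j => ⟨hn j, fun i => ?_, honce j⟩, fun i j hij => ?_⟩
  · nlinarith
  · rw [hstep j i, t2 j]
  · rw [Set.disjoint_left]
    rintro _ ⟨a, rfl⟩ ⟨a', ha'⟩
    simp only [hstep] at ha'
    rw [Sym2.eq_iff] at ha'
    rcases ha' with ⟨e1, e2⟩ | ⟨e1, e2⟩
    · rw [e1] at e2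
      exact t3 i j hij _ e2.symm
    · have e3 := congrArg (τ j) e1
      rw [e2] at e3
      -- e3 : other (w i a) = τ j (τ i (other (w i a)))
      have e4 := congrArg (τ j) e3
      rw [(t1 j).1] at e4
      exact t3 i j hij _ e4.symm

end Pool.Agent.H41.ET
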